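import Mathlib
import Pool.Agent.Lib.MP_ee7c95_co.Trunc

/-!
# The supremum over weak types defining `μ_p` need not be attained

For `p = 53/120` we exhibit a class `𝓗` of 2-coloured multigraphs for which `μ_p(𝓗)` is strictly
larger than the `p`-value of every weak type `τ` such that no member of `𝓗` is `τ`-colourable.
The class consists of the 2-coloured multigraphs which are not colourable by one particular
infinite weak type, whose Lagrangian optimum has infinite support.
-/

set_option autoImplicit false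

namespace Pool.Agent.Results.MP_ee7c95_co.NoAttainment

open Filter Topology
open Pool.Agent.Lib.MP_ee7c95_co

/-- A 2-coloured multigraph with vertex set `V`: a red and a blue simple graph on `V`. -/
structure MG (V : Type) where
  /-- the red graph -/
  red : SimpleGraph V
  /-- the blue graph -/
  blue : SimpleGraph V

/-- `G` contains `H`: an injection of the vertices maps red edges to red edges and blue edges to
blue edges. -/
def Contains {V W : Type} (G : MG W) (H : MG V) : Prop :=
  ∃ f : V → W, Function.Injective f ∧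
    (∀ x y, H.red.Adj x y → G.red.Adj (f x) (f y)) ∧
    (∀ x y, H.blue.Adj x y → G.blue.Adj (f x) (f y))

/-- The weight `w_p(G) = p e(G_r) + (1 - p) e(G_b)`. -/
noncomputable def weight (p : ℝ) {n : ℕ} (G : MG (Fin n)) : ℝ :=
  p * (G.red.edgeSet.ncard : ℝ) + (1 - p) * (G.blue.edgeSet.ncard : ℝ)

/-- `ex_p(𝓗, n)`: the greatest weight of a multigraph on `n` vertices containing no member
of `𝓗`. -/
noncomputable def ex (p : ℝ) (𝓗 : Set (Σ m : ℕ, MG (Fin m))) (n : ℕ) : ℝ :=
  sSup {w : ℝ | ∃ G : MG (Fin n), (∀ H ∈ 𝓗, ¬ Contains G H.2) ∧ weight p G = w}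

/-- The colours of the vertices of a weak type. -/
inductive VertexColour
  | red | blue | white
  deriving DecidableEq

/-- The colours of the edges of a weak type. -/
inductive EdgeColour
  | red | blue | green | white
  deriving DecidableEq

/-- A weak type on the vertex set `Fin k` (the values of `ecol` on the diagonal are not used). -/
structure WeakType (k : ℕ) where
  /-- colours of the vertices -/
  vcol : Fin k → VertexColour
  /-- colours of the edges -/
  ecol : Fin k → Fin k → EdgeColour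
  symm : ∀ u v, ecol u v = ecol v u

/-- `G ∈ 𝒬(τ)`. -/
def InQ {k : ℕ} (τ : WeakType k) {V : Type} (G : MG V) : Prop :=
  ∃ part : V → Fin k,
    (∀ x y, x ≠ y → part x = part y →
      (G.red.Adj x y ↔ τ.vcol (part x) = .red) ∧ (G.blue.Adj x y ↔ τ.vcol (part x) = .blue)) ∧
    (∀ x y, part x ≠ part y → τ.ecol (part x) (part y) ≠ .green →
      (G.red.Adj x y ↔ τ.ecol (part x) (part y) = .red) ∧
      (G.blue.Adj x y ↔ τ.ecol (part x) (part y) = .blue))

/-- `H` is `τ`-colourable: it is contained in some member of `𝒬(τ)`. -/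
def Colourable {k : ℕ} (τ : WeakType k) {V : Type} (H : MG V) : Prop :=
  ∃ (m : ℕ) (G : MG (Fin m)), InQ τ G ∧ Contains G H

/-- weight of a vertex colour -/
def vertexWeight (p : ℝ) : VertexColour → ℝ
  | .red => p
  | .blue => 1 - p
  | .white => 0

/-- weight of an edge colour -/
def edgeWeight (p : ℝ) : EdgeColour → ℝ
  | .red => p
  | .blue => 1 - p
  | .green => 1
  | .white => 0

/-- The matrix `W_p(τ)`. -/
def W (p : ℝ) {k : ℕ} (τ : WeakType k) (u v : Fin k) : ℝ :=
  if u = v then vertexWeight p (τ.vcol u) else edgeWeight p (τ.ecol u v)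

/-- The `p`-value `λ_p(τ)`: the maximum of `zᵗ W_p(τ) z` over the standard simplex. -/
noncomputable def pval (p : ℝ) {k : ℕ} (τ : WeakType k) : ℝ :=
  sSup ((fun z : Fin k → ℝ => ∑ u, ∑ v, z u * W p τ u v * z v) '' stdSimplex ℝ (Fin k))

/-! ### Maps to the infinite weak type -/

/-- red is allowed between (or inside) `a` and `b` -/
def aR (a b : ℕ) : Prop := code a b = 0 ∨ code a b = 2

/-- blue is allowed between (or inside) `a` and `b` -/
def aB (a b : ℕ) : Prop := code a b = 0 ∨ code a b = 1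

theorem aR_comm {a b : ℕ} (h : aR a b) : aR b a := by unfold aR at *; rwa [code_comm]

theorem aB_comm {a b : ℕ} (h : aB a b) : aB b a := by unfold aB at *; rwa [code_comm]

/-- `H` is colourable by the infinite weak type -/
def MapsT {V : Type} (H : MG V) : Prop :=
  ∃ φ : V → ℕ, (∀ x y, H.red.Adj x y → aR (φ x) (φ y)) ∧
    (∀ x y, H.blue.Adj x y → aB (φ x) (φ y))

/-- the class of all multigraphs which are not colourable by the infinite weak type -/
def Bad : Set (Σ m : ℕ, MG (Fin m)) := {H | ¬ MapsT H.2}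

theorem free_iff {n : ℕ} (G : MG (Fin n)) : (∀ H ∈ Bad, ¬ Contains G H.2) ↔ MapsT G := by
  constructor
  · intro h
    by_contra hG
    exact h ⟨n, G⟩ hG ⟨id, Function.injective_id, fun _ _ h => h, fun _ _ h => h⟩
  · rintro ⟨φ, hr, hb⟩ H hH ⟨f, -, fr, fb⟩
    exact hH ⟨fun x => φ (f x), fun x y h => hr _ _ (fr x y h), fun x y h => hb _ _ (fb x y h)⟩

theorem cost_cases (a b : ℕ) : (code a b = 0 ∧ cost a b = 0) ∨ (code a b = 1 ∧ cost a b = 53 / 120) ∨
    (code a b = 2 ∧ cost a b = 67 / 120) ∨ (3 ≤ code a b ∧ cost a b = 1) := by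
  unfold cost costQ
  rcases h : code a b with _ | _ | _ | n
  · left; exact ⟨rfl, by unfold codeCost; norm_num⟩
  · right; left; exact ⟨rfl, by unfold codeCost; norm_num⟩
  · right; right; left; exact ⟨rfl, by unfold codeCost; norm_num⟩
  · right; right; right
    have h1 : codeCost (n + 1 + 1 + 1) = 1 := rfl
    exact ⟨by omega, by rw [h1]; norm_num⟩

theorem cost_le (a b : ℕ) (r s : Prop) {_ : Decidable r} {_ : Decidable s} (hr : r → aR a b)
    (hs : s → aB a b) :
    53 / 120 * (if r then (1 : ℝ) else 0) + 67 / 120 * (if s then (1 : ℝ) else 0) ≤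
      1 - cost a b := by
  unfold aR at hr
  unfold aB at hs
  rcases cost_cases a b with ⟨h, h'⟩ | ⟨h, h'⟩ | ⟨h, h'⟩ | ⟨h, h'⟩
  · rw [h']; split_ifs <;> norm_num
  · have : ¬ r := fun h1 => by have := hr h1; omega
    rw [h', if_neg this]; split_ifs <;> norm_num
  · have : ¬ s := fun h1 => by have := hs h1; omega
    rw [h', if_neg this]; split_ifs <;> norm_num
  · have h1 : ¬ r := fun h1 => by have := hr h1; omega
    have h2 : ¬ s := fun h1 => by have := hs h1; omega
    rw [h', if_neg h1, if_neg h2]; norm_num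

theorem cost_eq (a b : ℕ) (r s : Prop) {_ : Decidable r} {_ : Decidable s} (hr : r ↔ aR a b)
    (hs : s ↔ aB a b) :
    53 / 120 * (if r then (1 : ℝ) else 0) + 67 / 120 * (if s then (1 : ℝ) else 0) =
      1 - cost a b := by
  unfold aR at hr
  unfold aB at hs
  rcases cost_cases a b with ⟨h, h'⟩ | ⟨h, h'⟩ | ⟨h, h'⟩ | ⟨h, h'⟩
  · have h1 : r := hr.mpr (by omega)
    have h2 : s := hs.mpr (by omega)
    rw [h', if_pos h1, if_pos h2]; norm_num
  · have h1 : ¬ r := fun h1 => by have := hr.mp h1; omega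
    have h2 : s := hs.mpr (by omega)
    rw [h', if_neg h1, if_pos h2]; norm_num
  · have h1 : r := hr.mpr (by omega)
    have h2 : ¬ s := fun h1 => by have := hs.mp h1; omega
    rw [h', if_pos h1, if_neg h2]; norm_num
  · have h1 : ¬ r := fun h1 => by have := hr.mp h1; omega
    have h2 : ¬ s := fun h1 => by have := hs.mp h1; omega
    rw [h', if_neg h1, if_neg h2]; norm_num

theorem cost_nonneg (a b : ℕ) : 0 ≤ cost a b := by
  rcases cost_cases a b with ⟨h, h'⟩ | ⟨h, h'⟩ | ⟨h, h'⟩ | ⟨h, h'⟩ <;> rw [h'] <;> norm_num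

theorem cost_le_one (a b : ℕ) : cost a b ≤ 1 := by
  rcases cost_cases a b with ⟨h, h'⟩ | ⟨h, h'⟩ | ⟨h, h'⟩ | ⟨h, h'⟩ <;> rw [h'] <;> norm_num

/-! ### Counting edges -/

open Classical in
theorem two_ncard {n : ℕ} (G : SimpleGraph (Fin n)) :
    2 * (G.edgeSet.ncard : ℝ) = ∑ i, ∑ j, if G.Adj i j then (1 : ℝ) else 0 := by
  have h1 : G.edgeSet.ncard = G.edgeFinset.card := by
    rw [Set.ncard_eq_toFinset_card' G.edgeSet]; rfl
  have h2 := G.sum_degrees_eq_twice_card_edges
  have h3 : ∀ i, (G.degree i : ℝ) = ∑ j, if G.Adj i j then (1 : ℝ) else 0 := by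
    intro i
    rw [← SimpleGraph.card_neighborFinset_eq_degree, SimpleGraph.neighborFinset_eq_filter,
      Finset.card_filter]
    push_cast
    rfl
  rw [h1]
  have h4 : ((∑ v, G.degree v : ℕ) : ℝ) = ((2 * G.edgeFinset.card : ℕ) : ℝ) := by rw [h2]
  push_cast at h4
  rw [← h4]
  exact Finset.sum_congr rfl fun i _ => h3 i

open Classical in
theorem two_weight {n : ℕ} (G : MG (Fin n)) :
    2 * weight (53 / 120) G = ∑ i, ∑ j,
      (53 / 120 * (if G.red.Adj i j then (1 : ℝ) else 0) +
        67 / 120 * (if G.blue.Adj i j then (1 : ℝ) else 0)) := by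
  have h1 := two_ncard G.red
  have h2 := two_ncard G.blue
  simp only [Finset.sum_add_distrib, ← Finset.mul_sum]
  rw [← h1, ← h2]
  unfold weight
  ring

theorem weight_upper {n : ℕ} (hn : 0 < n) (G : MG (Fin n)) (hG : MapsT G) :
    weight (53 / 120) G ≤ (n : ℝ) ^ 2 / 2 * (1 - del) := by
  classical
  obtain ⟨φ, hr, hb⟩ := hG
  have hn' : (0 : ℝ) < n := by exact_mod_cast hn
  have h1 := two_weight G
  have h2 : ∑ i, ∑ j, (53 / 120 * (if G.red.Adj i j then (1 : ℝ) else 0) +
        67 / 120 * (if G.blue.Adj i j then (1 : ℝ) else 0)) ≤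
      ∑ i : Fin n, ∑ j : Fin n, (1 - cost (φ i) (φ j)) :=
    Finset.sum_le_sum fun i _ => Finset.sum_le_sum fun j _ =>
      cost_le _ _ _ _ (hr i j) (hb i j)
  have h3 := energy_lower (Finset.univ : Finset (Fin n)) (fun _ => 1 / (n : ℝ))
    (by rw [Finset.sum_const, Finset.card_univ, Fintype.card_fin, nsmul_eq_mul]; field_simp) φ 0
  have h4 : ∑ u : Fin n, ∑ v : Fin n, 1 / (n : ℝ) * (1 / (n : ℝ)) * cost (φ u) (φ v) =
      1 / (n : ℝ) ^ 2 * ∑ u : Fin n, ∑ v : Fin n, cost (φ u) (φ v) := by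
    simp only [Finset.mul_sum]
    refine Finset.sum_congr rfl fun u _ => Finset.sum_congr rfl fun v _ => by ring
  rw [h4] at h3
  have h5 : del ≤ 1 / (n : ℝ) ^ 2 * ∑ u : Fin n, ∑ v : Fin n, cost (φ u) (φ v) := by
    refine le_trans ?_ h3
    have : 0 ≤ (mass (Finset.univ : Finset (Fin n)) (fun _ => 1 / (n : ℝ)) φ (11 + 0) -
      w0 * (2 / 7) ^ 0) ^ 2 := sq_nonneg _
    linarith
  have h6 : ∑ i : Fin n, ∑ j : Fin n, (1 - cost (φ i) (φ j)) =
      (n : ℝ) ^ 2 - ∑ u : Fin n, ∑ v : Fin n, cost (φ u) (φ v) := by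
    simp only [Finset.sum_sub_distrib, Finset.sum_const, Finset.card_univ, Fintype.card_fin,
      nsmul_eq_mul]
    ring
  have h7 : del * (n : ℝ) ^ 2 ≤ ∑ u : Fin n, ∑ v : Fin n, cost (φ u) (φ v) := by
    rw [one_div, inv_mul_eq_div, le_div_iff₀ (by positivity)] at h5
    exact h5
  nlinarith

theorem weight_lower (n M : ℕ) : ∃ G : MG (Fin n), MapsT G ∧
    (n : ℝ) * (n - 1) / 2 * (1 - del - 49 / 120 * (w0 * (2 / 7) ^ (M + 1)) ^ 2) ≤
      weight (53 / 120) G := by
  classical
  obtain ⟨φ, hφ⟩ := greedy (Finset.range (11 + (M + 1))) (zt M) (fun a _ => zt_nonneg M a)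
    (zt_sum M) (fun a b => 1 - cost a b) (fun a b => by rw [cost_comm]) n (fun _ => 0)
  have hE := zt_energy M
  have hs := zt_sum M
  have h1 : ∑ a ∈ Finset.range (11 + (M + 1)), ∑ b ∈ Finset.range (11 + (M + 1)),
      zt M a * zt M b * (1 - cost a b) =
      1 - (del + 49 / 120 * (w0 * (2 / 7) ^ (M + 1)) ^ 2) := by
    rw [← hE]
    simp only [mul_sub, Finset.sum_sub_distrib, mul_one, ← Finset.mul_sum, hs]
  rw [h1] at hφ
  simp only [mul_zero, Finset.sum_const_zero, add_zero] at hφ
  let G : MG (Fin n) :=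
    { red :=
        { Adj := fun i j => i ≠ j ∧ aR (φ i) (φ j)
          symm := ⟨fun i j h => ⟨h.1.symm, aR_comm h.2⟩⟩
          loopless := ⟨fun _ h => h.1 rfl⟩ }
      blue :=
        { Adj := fun i j => i ≠ j ∧ aB (φ i) (φ j)
          symm := ⟨fun i j h => ⟨h.1.symm, aB_comm h.2⟩⟩
          loopless := ⟨fun _ h => h.1 rfl⟩ } }
  refine ⟨G, ⟨φ, fun x y h => h.2, fun x y h => h.2⟩, ?_⟩
  have h4 : ∑ i : Fin n, ∑ j : Fin n,
      ((1 - cost (φ i) (φ j)) - (if i = j then 1 - cost (φ i) (φ i) else 0)) =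
      ∑ i : Fin n, ∑ j : Fin n, (1 - cost (φ i) (φ j)) - ∑ i : Fin n, (1 - cost (φ i) (φ i)) := by
    rw [Finset.sum_congr rfl fun i _ => Finset.sum_sub_distrib _ _, Finset.sum_sub_distrib]
    congr 1
    refine Finset.sum_congr rfl fun i _ => ?_
    rw [Finset.sum_ite_eq, if_pos (Finset.mem_univ _)]
  have h2 : 2 * weight (53 / 120) G = ∑ i : Fin n, ∑ j : Fin n, (1 - cost (φ i) (φ j)) -
      ∑ i : Fin n, (1 - cost (φ i) (φ i)) := by
    rw [← h4]
    refine (two_weight G).trans
      (Finset.sum_congr rfl fun i _ => Finset.sum_congr rfl fun j _ => ?_)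
    by_cases hij : i = j
    · subst hij
      rw [if_neg (fun h => h.1 rfl), if_neg (fun h => h.1 rfl), if_pos rfl]
      ring
    · rw [if_neg hij, sub_zero]
      exact cost_eq _ _ _ _ ⟨fun h => h.2, fun h => ⟨hij, h⟩⟩ ⟨fun h => h.2, fun h => ⟨hij, h⟩⟩
  linarith

/-! ### The limit -/

theorem ex_upper {n : ℕ} (hn : 0 < n) : ex (53 / 120) Bad n ≤ (n : ℝ) ^ 2 / 2 * (1 - del) := by
  unfold ex
  apply csSup_le
  · obtain ⟨G, hG, -⟩ := weight_lower n 0
    exact ⟨_, G, (free_iff G).mpr hG, rfl⟩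
  · rintro w ⟨G, hG, rfl⟩
    exact weight_upper hn G ((free_iff G).mp hG)

theorem ex_lower {n : ℕ} (hn : 0 < n) :
    (n : ℝ) * (n - 1) / 2 * (1 - del) ≤ ex (53 / 120) Bad n := by
  have h : ∀ M : ℕ, (n : ℝ) * (n - 1) / 2 *
      (1 - del - 49 / 120 * (w0 * (2 / 7) ^ (M + 1)) ^ 2) ≤ ex (53 / 120) Bad n := by
    intro M
    obtain ⟨G, hG, hw⟩ := weight_lower n M
    refine hw.trans (le_csSup ⟨(n : ℝ) ^ 2 / 2 * (1 - del), ?_⟩ ⟨G, (free_iff G).mpr hG, rfl⟩)
    rintro w ⟨G, hG, rfl⟩
    exact weight_upper hn G ((free_iff G).mp hG)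
  have ht : Tendsto (fun M : ℕ => (n : ℝ) * (n - 1) / 2 *
      (1 - del - 49 / 120 * (w0 * (2 / 7) ^ (M + 1)) ^ 2)) atTop
      (𝓝 ((n : ℝ) * (n - 1) / 2 * (1 - del - 49 / 120 * (w0 * 0) ^ 2))) := by
    refine Tendsto.const_mul _ (Tendsto.const_sub _ (Tendsto.const_mul _
      (Tendsto.pow (Tendsto.const_mul _ ?_) 2)))
    exact (tendsto_pow_atTop_nhds_zero_of_lt_one (by norm_num) (by norm_num)).comp
      (tendsto_add_atTop_nat 1)
  have := le_of_tendsto' ht h
  simpa using this

theorem ex_tendsto :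
    Tendsto (fun n : ℕ => ex (53 / 120) Bad n / (n.choose 2 : ℝ)) atTop (𝓝 (1 - del)) := by
  have hup : Tendsto (fun n : ℕ => (1 - del) * ((n : ℝ) / (n + (-1)))) atTop (𝓝 (1 - del)) := by
    have := (tendsto_natCast_div_add_atTop (-1 : ℝ)).const_mul (1 - del)
    rwa [mul_one] at this
  refine tendsto_of_tendsto_of_tendsto_of_le_of_le' tendsto_const_nhds hup ?_ ?_
  · filter_upwards [eventually_ge_atTop 2] with n hn
    have hn' : (2 : ℝ) ≤ n := by exact_mod_cast hn
    have h := ex_lower (n := n) (by omega)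
    rw [Nat.cast_choose_two, le_div_iff₀ (by nlinarith)]
    linarith
  · filter_upwards [eventually_ge_atTop 2] with n hn
    have hn' : (2 : ℝ) ≤ n := by exact_mod_cast hn
    have h := ex_upper (n := n) (by omega)
    rw [Nat.cast_choose_two, div_le_iff₀ (by nlinarith)]
    have h1 : (1 - del) * ((n : ℝ) / (n + (-1))) * ((n : ℝ) * (n - 1) / 2) =
        (n : ℝ) ^ 2 / 2 * (1 - del) := by
      have : (n : ℝ) + (-1) ≠ 0 := by linarith
      field_simp
      ring
    rw [h1]
    exact h

/-! ### Weak types -/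

/-- red is present between (or inside) the classes `u` and `v` -/
def redT {k : ℕ} (τ : WeakType k) (u v : Fin k) : Prop :=
  if u = v then τ.vcol u = .red else (τ.ecol u v = .red ∨ τ.ecol u v = .green)

/-- blue is present between (or inside) the classes `u` and `v` -/
def blueT {k : ℕ} (τ : WeakType k) (u v : Fin k) : Prop :=
  if u = v then τ.vcol u = .blue else (τ.ecol u v = .blue ∨ τ.ecol u v = .green)

theorem redT_comm {k : ℕ} (τ : WeakType k) {u v : Fin k} (h : redT τ u v) : redT τ v u := by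
  unfold redT at *
  by_cases huv : u = v
  · subst huv; exact h
  · rw [if_neg huv] at h
    rw [if_neg (fun h' => huv h'.symm), τ.symm v u]
    exact h

theorem blueT_comm {k : ℕ} (τ : WeakType k) {u v : Fin k} (h : blueT τ u v) : blueT τ v u := by
  unfold blueT at *
  by_cases huv : u = v
  · subst huv; exact h
  · rw [if_neg huv] at h
    rw [if_neg (fun h' => huv h'.symm), τ.symm v u]
    exact h

open Classical in
theorem W_eq {k : ℕ} (τ : WeakType k) (u v : Fin k) : W (53 / 120) τ u v =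
    53 / 120 * (if redT τ u v then (1 : ℝ) else 0) +
      67 / 120 * (if blueT τ u v then (1 : ℝ) else 0) := by
  unfold W redT blueT
  by_cases huv : u = v
  · rw [if_pos huv, if_pos huv, if_pos huv]
    cases τ.vcol u <;> simp [vertexWeight]
    norm_num
  · rw [if_neg huv, if_neg huv, if_neg huv]
    cases τ.ecol u v <;> simp [edgeWeight] <;> norm_num

/-- the blow-up of a weak type with classes of size `n` -/
def blow {k : ℕ} (τ : WeakType k) (n : ℕ) : MG (Fin (k * n)) where
  red :=
    { Adj := fun i j => i ≠ j ∧ redT τ (finProdFinEquiv.symm i).1 (finProdFinEquiv.symm j).1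
      symm := ⟨fun _ _ h => ⟨h.1.symm, redT_comm τ h.2⟩⟩
      loopless := ⟨fun _ h => h.1 rfl⟩ }
  blue :=
    { Adj := fun i j => i ≠ j ∧ blueT τ (finProdFinEquiv.symm i).1 (finProdFinEquiv.symm j).1
      symm := ⟨fun _ _ h => ⟨h.1.symm, blueT_comm τ h.2⟩⟩
      loopless := ⟨fun _ h => h.1 rfl⟩ }

theorem blow_colourable {k : ℕ} (τ : WeakType k) (n : ℕ) : Colourable τ (blow τ n) := by
  refine ⟨k * n, blow τ n, ⟨fun i => (finProdFinEquiv.symm i).1, ?_, ?_⟩,
    ⟨id, Function.injective_id, fun _ _ h => h, fun _ _ h => h⟩⟩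
  · intro x y hxy hp
    constructor
    · constructor
      · intro h
        have h2 := h.2
        unfold redT at h2
        rwa [if_pos hp] at h2
      · intro h
        refine ⟨hxy, ?_⟩
        unfold redT
        rwa [if_pos hp]
    · constructor
      · intro h
        have h2 := h.2
        unfold blueT at h2
        rwa [if_pos hp] at h2
      · intro h
        refine ⟨hxy, ?_⟩
        unfold blueT
        rwa [if_pos hp]
  · intro x y hp hg
    have hxy : x ≠ y := fun h => hp (by rw [h])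
    constructor
    · constructor
      · intro h
        have h2 := h.2
        unfold redT at h2
        rw [if_neg hp] at h2
        exact h2.resolve_right hg
      · intro h
        refine ⟨hxy, ?_⟩
        unfold redT
        rw [if_neg hp]
        exact Or.inl h
    · constructor
      · intro h
        have h2 := h.2
        unfold blueT at h2
        rw [if_neg hp] at h2
        exact h2.resolve_right hg
      · intro h
        refine ⟨hxy, ?_⟩
        unfold blueT
        rw [if_neg hp]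
        exact Or.inl h

theorem code_diag {a : ℕ} (ha : 11 ≤ a) : code a a = 3 := by
  unfold code
  by_cases h : a < 12
  · have : a = 11 := by omega
    subst this
    decide
  · rw [if_neg (by omega), if_neg (by omega), if_neg (by omega), if_pos rfl]

/-- a folded map from the blow-up of `τ` which is constant on the white classes -/
theorem folded {k : ℕ} (τ : WeakType k) (n : ℕ) (h : MapsT (blow τ (n + 1))) :
    ∃ ψ : Fin k × Fin (n + 1) → ℕ,
      (∀ x y, x ≠ y → redT τ x.1 y.1 → aR (ψ x) (ψ y)) ∧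
      (∀ x y, x ≠ y → blueT τ x.1 y.1 → aB (ψ x) (ψ y)) ∧
      (∀ x, τ.vcol x.1 = .white → ψ x = ψ (x.1, 0)) := by
  obtain ⟨φ, hr, hb⟩ := h
  have hr' : ∀ x y : Fin k × Fin (n + 1), x ≠ y → redT τ x.1 y.1 →
      aR (φ (finProdFinEquiv x)) (φ (finProdFinEquiv y)) := by
    intro x y hxy h
    apply hr
    refine ⟨fun h' => hxy (finProdFinEquiv.injective h'), ?_⟩
    simpa only [Equiv.symm_apply_apply] using h
  have hb' : ∀ x y : Fin k × Fin (n + 1), x ≠ y → blueT τ x.1 y.1 →
      aB (φ (finProdFinEquiv x)) (φ (finProdFinEquiv y)) := by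
    intro x y hxy h
    apply hb
    refine ⟨fun h' => hxy (finProdFinEquiv.injective h'), ?_⟩
    simpa only [Equiv.symm_apply_apply] using h
  let g : Fin k × Fin (n + 1) → Fin k × Fin (n + 1) :=
    fun x => if τ.vcol x.1 = .white then (x.1, 0) else x
  have hg1 : ∀ x, (g x).1 = x.1 := by
    intro x
    by_cases hw : τ.vcol x.1 = .white
    · simp only [g, if_pos hw]
    · simp only [g, if_neg hw]
  have hg2 : ∀ x y, x ≠ y → g x = g y → x.1 = y.1 ∧ τ.vcol x.1 = .white := by
    intro x y hxy hxy'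
    have h1 : x.1 = y.1 := by rw [← hg1 x, ← hg1 y, hxy']
    refine ⟨h1, ?_⟩
    by_contra hw
    have h2 : g x = x := by simp only [g, if_neg hw]
    have h3 : g y = y := by rw [h1] at hw; simp only [g, if_neg hw]
    exact hxy (by rw [← h2, ← h3, hxy'])
  refine ⟨fun x => φ (finProdFinEquiv (g x)), ?_, ?_, ?_⟩
  · intro x y hxy h
    refine hr' (g x) (g y) ?_ (by rw [hg1, hg1]; exact h)
    intro h'
    obtain ⟨h1, h2⟩ := hg2 x y hxy h'
    unfold redT at h
    rw [if_pos h1, h2] at h
    cases h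
  · intro x y hxy h
    refine hb' (g x) (g y) ?_ (by rw [hg1, hg1]; exact h)
    intro h'
    obtain ⟨h1, h2⟩ := hg2 x y hxy h'
    unfold blueT at h
    rw [if_pos h1, h2] at h
    cases h
  · intro x hx
    have h1 : g x = (x.1, 0) := by simp only [g, if_pos hx]
    have h2 : g (x.1, 0) = (x.1, 0) := by simp only [g, if_pos hx]
    show φ (finProdFinEquiv (g x)) = φ (finProdFinEquiv (g (x.1, 0)))
    rw [h1, h2]

theorem exists_missed {k : ℕ} (f : Fin k → ℕ) : ∃ j ≤ k, ∀ v, f v ≠ 11 + j := by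
  by_contra hcon
  push Not at hcon
  have h1 : (Finset.range (k + 1)).image (fun j => 11 + j) ⊆ Finset.univ.image f := by
    intro a ha
    rw [Finset.mem_image] at ha
    obtain ⟨j, hj, rfl⟩ := ha
    rw [Finset.mem_range] at hj
    obtain ⟨v, hv⟩ := hcon j (by omega)
    exact Finset.mem_image.mpr ⟨v, Finset.mem_univ _, hv⟩
  have h2 := Finset.card_le_card h1
  rw [Finset.card_image_of_injective _ (fun a b h => by simpa using h), Finset.card_range] at h2
  have h3 : (Finset.univ.image f).card ≤ k :=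
    Finset.card_image_le.trans (by rw [Finset.card_univ, Fintype.card_fin])
  omega

theorem W_le_one {k : ℕ} (τ : WeakType k) (u v : Fin k) : W (53 / 120) τ u v ≤ 1 := by
  classical
  rw [W_eq]
  split_ifs <;> norm_num

theorem type_bound {k : ℕ} (τ : WeakType k) (n : ℕ) (h : MapsT (blow τ (n + 1)))
    (z : Fin k → ℝ) (hz : ∀ v, 0 ≤ z v) (hz1 : ∑ v, z v = 1) :
    ∃ j ≤ k, ∃ m : ℝ, m ≤ 1 / ((n : ℝ) + 1) ∧
      ∑ u, ∑ v, z u * W (53 / 120) τ u v * z v ≤
        1 - del + 1 / ((n : ℝ) + 1) - 2 / 35 * (m - w0 * (2 / 7) ^ j) ^ 2 := by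
  classical
  obtain ⟨ψ, hr, hb, hw⟩ := folded τ n h
  obtain ⟨j, hj, hmiss⟩ := exists_missed (fun v => ψ (v, 0))
  have hn : (0 : ℝ) < (n : ℝ) + 1 := by positivity
  let ω : Fin k × Fin (n + 1) → ℝ := fun x => z x.1 / ((n : ℝ) + 1)
  have hω1 : ∑ x, ω x = 1 := by
    rw [Fintype.sum_prod_type]
    simp only [ω, Finset.sum_const, Finset.card_univ, Fintype.card_fin, nsmul_eq_mul]
    refine Eq.trans (Finset.sum_congr rfl fun v _ => ?_) hz1
    push_cast
    field_simp
  have hω0 : ∀ x, 0 ≤ ω x := fun x => div_nonneg (hz _) hn.le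
  have hE := energy_lower (Finset.univ : Finset (Fin k × Fin (n + 1))) ω hω1 ψ j
  refine ⟨j, hj, mass Finset.univ ω ψ (11 + j), ?_, ?_⟩
  · unfold mass
    rw [Fintype.sum_prod_type]
    have h1 : ∀ v : Fin k, ∑ i : Fin (n + 1), ω (v, i) * (if ψ (v, i) = 11 + j then (1 : ℝ) else 0) ≤
        z v / ((n : ℝ) + 1) := by
      intro v
      have h2 : ∑ i : Fin (n + 1), ω (v, i) * (if ψ (v, i) = 11 + j then (1 : ℝ) else 0) =
          z v / ((n : ℝ) + 1) * ((Finset.univ.filter fun i => ψ (v, i) = 11 + j).card : ℝ) := by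
        rw [Finset.card_filter]
        push_cast
        rw [Finset.mul_sum]
      rw [h2]
      have h3 : (Finset.univ.filter fun i => ψ (v, i) = 11 + j).card ≤ 1 := by
        rw [Finset.card_le_one]
        intro a ha b hb'
        rw [Finset.mem_filter] at ha hb'
        by_contra hab
        have hne : (v, a) ≠ (v, b) := fun h => hab (Prod.ext_iff.mp h).2
        rcases hc : τ.vcol v with _ | _ | _
        · have h4 := hr (v, a) (v, b) hne (by unfold redT; rw [if_pos rfl]; exact hc)
          rw [ha.2, hb'.2] at h4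
          unfold aR at h4
          rw [code_diag (by omega)] at h4
          omega
        · have h4 := hb (v, a) (v, b) hne (by unfold blueT; rw [if_pos rfl]; exact hc)
          rw [ha.2, hb'.2] at h4
          unfold aB at h4
          rw [code_diag (by omega)] at h4
          omega
        · exact hmiss v ((hw (v, a) hc).symm.trans ha.2)
      have h5 : ((Finset.univ.filter fun i => ψ (v, i) = 11 + j).card : ℝ) ≤ 1 := by
        exact_mod_cast h3
      have h6 : 0 ≤ z v / ((n : ℝ) + 1) := div_nonneg (hz v) hn.le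
      nlinarith
    refine (Finset.sum_le_sum fun v _ => h1 v).trans ?_
    rw [← Finset.sum_div, hz1]
  · have h1 : ∀ x y : Fin k × Fin (n + 1), ω x * ω y * cost (ψ x) (ψ y) ≤
        ω x * ω y * (1 - W (53 / 120) τ x.1 y.1) + (if x = y then ω x * ω x else 0) := by
      intro x y
      by_cases hxy : x = y
      · subst hxy
        rw [if_pos rfl]
        have h2 := cost_le_one (ψ x) (ψ x)
        have h3 := W_le_one τ x.1 x.1
        have h4 : 0 ≤ ω x * ω x := mul_nonneg (hω0 x) (hω0 x)
        nlinarith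
      · rw [if_neg hxy, add_zero]
        apply mul_le_mul_of_nonneg_left _ (mul_nonneg (hω0 x) (hω0 y))
        have h2 : W (53 / 120) τ x.1 y.1 ≤ 1 - cost (ψ x) (ψ y) := by
          rw [W_eq]
          exact cost_le _ _ _ _ (hr x y hxy) (hb x y hxy)
        linarith
    have h2 : ∑ x, ∑ y, ω x * ω y * cost (ψ x) (ψ y) ≤
        ∑ x, ∑ y, (ω x * ω y * (1 - W (53 / 120) τ x.1 y.1) +
          (if x = y then ω x * ω x else 0)) :=
      Finset.sum_le_sum fun x _ => Finset.sum_le_sum fun y _ => h1 x y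
    have h3 : ∑ x, ∑ y, (ω x * ω y * (1 - W (53 / 120) τ x.1 y.1) +
          (if x = y then ω x * ω x else 0)) =
        1 - ∑ x, ∑ y, ω x * ω y * W (53 / 120) τ x.1 y.1 + ∑ x, ω x * ω x := by
      simp only [Finset.sum_add_distrib, mul_sub, Finset.sum_sub_distrib, mul_one,
        ← Finset.mul_sum, hω1, Finset.sum_ite_eq, Finset.mem_univ, if_true]
    have h4 : ∑ x, ∑ y, ω x * ω y * W (53 / 120) τ x.1 y.1 =
        ∑ u, ∑ v, z u * W (53 / 120) τ u v * z v := by
      simp only [Fintype.sum_prod_type, ω, Finset.sum_const, Finset.card_univ, Fintype.card_fin,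
        nsmul_eq_mul, Finset.mul_sum]
      refine Finset.sum_congr rfl fun u _ => Finset.sum_congr rfl fun v _ => ?_
      push_cast
      field_simp
    have h5 : ∑ x, ω x * ω x ≤ 1 / ((n : ℝ) + 1) := by
      have h6 : ∀ x, ω x * ω x ≤ ω x * (1 / ((n : ℝ) + 1)) := by
        intro x
        apply mul_le_mul_of_nonneg_left _ (hω0 x)
        show z x.1 / ((n : ℝ) + 1) ≤ 1 / ((n : ℝ) + 1)
        apply div_le_div_of_nonneg_right _ hn.le
        rw [← hz1]
        exact Finset.single_le_sum (fun v _ => hz v) (Finset.mem_univ _)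
      refine (Finset.sum_le_sum fun x _ => h6 x).trans ?_
      rw [← Finset.sum_mul, hω1, one_mul]
    rw [h3, h4] at h2
    linarith

theorem w0_le : w0 ≤ 1 := by unfold w0; norm_num

theorem pval_lt {k : ℕ} (τ : WeakType k) (hτ : ∀ H ∈ Bad, ¬ Colourable τ H.2) :
    pval (53 / 120) τ < 1 - del := by
  have hmaps : ∀ n, MapsT (blow τ n) := by
    intro n
    by_contra hcon
    exact hτ ⟨k * n, blow τ n⟩ hcon (blow_colourable τ n)
  set ε : ℝ := w0 * (2 / 7) ^ k with hε
  have hε0 : 0 < ε := mul_pos w0_pos (by positivity)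
  have hε1 : ε ≤ 1 := by
    have h1 : ((2 : ℝ) / 7) ^ k ≤ 1 := pow_le_one₀ (by norm_num) (by norm_num)
    have := w0_le
    have h2 : (0 : ℝ) ≤ (2 / 7) ^ k := by positivity
    nlinarith [w0_pos]
  have hdel : del < 1 := by
    unfold del
    have : delQ < 1 := by unfold delQ; norm_num
    exact_mod_cast this
  obtain ⟨n, hn⟩ := exists_nat_one_div_lt (show (0 : ℝ) < ε ^ 2 / 100 by positivity)
  have key : ∀ z ∈ stdSimplex ℝ (Fin k), ∑ u, ∑ v, z u * W (53 / 120) τ u v * z v ≤
      1 - del - ε ^ 2 / 100 := by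
    intro z hz
    obtain ⟨j, hj, m, hm, hle⟩ := type_bound τ n (hmaps _) z hz.1 hz.2
    have h1 : ε ≤ w0 * (2 / 7) ^ j := by
      rw [hε]
      exact mul_le_mul_of_nonneg_left
        (pow_le_pow_of_le_one (by norm_num) (by norm_num) hj) w0_pos.le
    have h2 : m ≤ ε / 100 := by nlinarith
    have h3 : (99 / 100 * ε) ^ 2 ≤ (m - w0 * (2 / 7) ^ j) ^ 2 := by
      have : 99 / 100 * ε ≤ w0 * (2 / 7) ^ j - m := by linarith
      nlinarith
    nlinarith
  have hlt : 1 - del - ε ^ 2 / 100 < 1 - del := by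
    have : 0 < ε ^ 2 := by positivity
    linarith
  refine lt_of_le_of_lt ?_ hlt
  unfold pval
  apply Real.sSup_le
  · rintro _ ⟨z, hz, rfl⟩
    exact key z hz
  · have h1 : ε ^ 2 ≤ 1 := by nlinarith
    have h2 : del ≤ 9 / 10 := by
      unfold del
      have : delQ ≤ 9 / 10 := by unfold delQ; norm_num
      have h3 : ((delQ : ℚ) : ℝ) ≤ ((9 / 10 : ℚ) : ℝ) := Rat.cast_le.mpr this
      push_cast at h3
      exact h3
    linarith

/-! ### The class is not empty -/

theorem bad_nonempty : Bad.Nonempty := by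
  classical
  let G : MG (Fin 10) := { red := ⊤, blue := ⊤ }
  refine ⟨⟨10, G⟩, ?_⟩
  intro hG
  have h1 := weight_upper (by norm_num : 0 < 10) G hG
  have h3 : ∑ i : Fin 10, ∑ j : Fin 10, (1 - (if i = j then (1 : ℝ) else 0)) = 90 := by
    simp only [Finset.sum_sub_distrib, Finset.sum_ite_eq, Finset.mem_univ, if_true,
      Finset.sum_const, Finset.card_univ, Fintype.card_fin, nsmul_eq_mul]
    norm_num
  have h2 : 2 * weight (53 / 120) G = 90 := by
    rw [← h3]
    refine (two_weight G).trans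
      (Finset.sum_congr rfl fun i _ => Finset.sum_congr rfl fun j _ => ?_)
    by_cases hij : i = j
    · subst hij
      simp [G]
    · have hr : G.red.Adj i j := hij
      simp only [if_neg hij, if_pos hr, G]
      norm_num
  have h4 : (1 : ℝ) / 10 < del := by
    unfold del
    have : 1 / 10 < delQ := by unfold delQ; norm_num
    have h3 : ((1 / 10 : ℚ) : ℝ) < ((delQ : ℚ) : ℝ) := Rat.cast_lt.mpr this
    push_cast at h3
    exact h3
  push_cast at h1
  linarith

/-- **Disproof of attainment.**  For `p = 53/120` there is a nonempty class `𝓗` of 2-coloured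
multigraphs, with `μ_p(𝓗) = μ < 1`, such that `λ_p(τ) < μ_p(𝓗)` for every weak type `τ` such that
no member of `𝓗` is `τ`-colourable. -/
theorem result : ∃ 𝓗 : Set (Σ m : ℕ, MG (Fin m)), 𝓗.Nonempty ∧ ∃ μ : ℝ, μ < 1 ∧
    Tendsto (fun n : ℕ => ex (53 / 120) 𝓗 n / (n.choose 2 : ℝ)) atTop (𝓝 μ) ∧
    ∀ (k : ℕ) (τ : WeakType k), (∀ H ∈ 𝓗, ¬ Colourable τ H.2) → pval (53 / 120) τ < μ := by
  refine ⟨Bad, bad_nonempty, 1 - del, ?_, ex_tendsto, fun k τ hτ => pval_lt τ hτ⟩
  have : 0 < del := by
    unfold del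
    have : 0 < delQ := by unfold delQ; norm_num
    exact_mod_cast this
  linarith

end Pool.Agent.Results.MP_ee7c95_co.NoAttainment
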